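import Pool.Agent.H47.KB.Defs

set_option autoImplicit false

open MvPolynomial Filter Topology

namespace Pool.Agent.H47.KB

/-- The monomials of weight `m` and degree at least `p`. -/
def Mon (n k m p : ℕ) : Type :=
  {a : Fin k × Fin n →₀ ℕ // Finsupp.weight (wt n k) a = m ∧ p ≤ a.degree}

section translate

variable {σ : Type*} (c : σ → ℂ)

/-- translation -/
noncomputable def tr (c : σ → ℂ) : MvPolynomial σ ℂ →ₐ[ℂ] MvPolynomial σ ℂ :=
  aeval fun i => X i + C (c i)

lemma tr_tr (Q : MvPolynomial σ ℂ) : tr (-c) (tr c Q) = Q := by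
  have h : (tr (-c)).comp (tr c) = AlgHom.id ℂ _ := by
    ext i
    simp [tr]
  exact congrArg (fun f => f Q) h

lemma tr_injective : Function.Injective (tr c) := fun P Q h => by
  rw [← tr_tr c P, ← tr_tr c Q, h]

lemma totalDegree_tr_le (Q : MvPolynomial σ ℂ) : (tr c Q).totalDegree ≤ Q.totalDegree := by
  unfold tr
  rw [aeval_def, eval₂_eq]
  refine (totalDegree_finsetSum _ _).trans (Finset.sup_le fun s hs => ?_)
  refine (totalDegree_mul _ _).trans ?_
  have h1 : (algebraMap ℂ (MvPolynomial σ ℂ) (coeff s Q)).totalDegree = 0 := by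
    rw [algebraMap_eq]
    exact totalDegree_C _
  rw [h1, zero_add]
  refine (totalDegree_finsetProd _ _).trans ?_
  have h2 : ∀ i ∈ s.support, ((X i + C (c i) : MvPolynomial σ ℂ) ^ s i).totalDegree ≤ s i := by
    intro i _
    refine (totalDegree_pow _ _).trans ?_
    have h3 : (X i + C (c i) : MvPolynomial σ ℂ).totalDegree ≤ 1 := by
      refine (totalDegree_add _ _).trans ?_
      rw [totalDegree_X, totalDegree_C]
      simp
    calc s i * _ ≤ s i * 1 := Nat.mul_le_mul_left _ h3
      _ = s i := mul_one _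
  refine (Finset.sum_le_sum h2).trans ?_
  exact le_totalDegree hs

end translate

/-- A polynomial of degree `< p` vanishing to order `≥ p` at a point is zero. -/
lemma eq_zero_of_low {n k p : ℕ} {c : Fin k × Fin n → ℂ} {Q : MvPolynomial (Fin k × Fin n) ℂ}
    (h : VanAt p Q c) (hd : ∀ s ∈ Q.support, s.degree < p) : Q = 0 := by
  by_contra hQ
  have hne : Q.support.Nonempty := by
    rwa [Finset.nonempty_iff_ne_empty, Ne, support_eq_empty]
  have h2 : Q.totalDegree < p := by
    unfold totalDegree
    rw [Finset.sup_lt_iff]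
    · intro s hs
      exact hd s hs
    · obtain ⟨s, hs⟩ := hne
      exact lt_of_le_of_lt (Nat.zero_le _) (hd s hs)
  have h3 : tr c Q ≠ 0 := fun h0 => hQ (tr_injective c (by rw [h0, map_zero]))
  apply h3
  ext s
  rw [coeff_zero]
  by_cases hs : s.degree < p
  · exact h s hs
  · by_contra hc
    have h4 : s ∈ (tr c Q).support := mem_support_iff.2 hc
    have h5 := le_totalDegree h4
    have h6 := totalDegree_tr_le c Q
    have h7 : s.degree = s.sum fun _ e => e := rfl
    omega

instance finite_mon (n k m p : ℕ) : Finite (Mon n k m p) := by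
  have h : {a : Fin k × Fin n →₀ ℕ | Finsupp.weight (wt n k) a ≤ m}.Finite :=
    Finsupp.finite_of_nat_weight_le _ (fun _ => Nat.succ_ne_zero _) m
  exact (h.subset fun a ha => ha.1.le :
    {a : Fin k × Fin n →₀ ℕ | Finsupp.weight (wt n k) a = m ∧ p ≤ a.degree}.Finite)

/-- MULT: a space of polynomials of weight `m` which vanish to order at least `p` at a point has dimension at
most the number of monomials of weight `m` and degree at least `p`. -/
theorem mult {n k m p : ℕ} (c : Fin k × Fin n → ℂ) (V : Submodule ℂ (MvPolynomial (Fin k × Fin n) ℂ))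
    (h1 : ∀ Q ∈ V, IsWeightedHomogeneous (wt n k) Q m) (h2 : ∀ Q ∈ V, VanAt p Q c) :
    Module.finrank ℂ V ≤ Nat.card (Mon n k m p) := by
  classical
  have : Fintype (Mon n k m p) := Fintype.ofFinite _
  let L : V →ₗ[ℂ] (Mon n k m p → ℂ) :=
    { toFun := fun Q a => coeff a.1 Q.1
      map_add' := fun _ _ => by funext a; simp
      map_smul' := fun _ _ => by funext a; simp }
  have hL : Function.Injective L := by
    rw [← LinearMap.ker_eq_bot, LinearMap.ker_eq_bot']
    intro Q hQ
    apply Subtype.ext
    refine eq_zero_of_low (h2 Q.1 Q.2) fun s hs => ?_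
    by_contra hlt
    push Not at hlt
    exact (mem_support_iff.1 hs) (congrFun hQ ⟨s, h1 Q.1 Q.2 (mem_support_iff.1 hs), hlt⟩)
  have h := LinearMap.finrank_le_finrank_of_injective hL
  rwa [Module.finrank_fintype_fun_eq_card, ← Nat.card_eq_fintype_card] at h

end Pool.Agent.H47.KB
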