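import Mathlib

/-!
# General hypersurfaces of degree `d ≥ C n³ (1 + log n)`: definitions and published facts

`X_F ⊂ ℙ^{n+1}` is the hypersurface of a form `F` of degree `d`, of dimension `n`; `E_{k,m}` is the bundle of
Green and Griffiths on `X_F`: polynomials of weight `m` in the derivatives `f', .., f^{(k)}` (weights `1, .., k`)
of curve germs in `X_F`.
-/

set_option autoImplicit false

open MvPolynomial Filter Topology

namespace Pool.Agent.H47.KB

/-- Vectors of homogeneous coordinates of `ℙ^{n+1}`. -/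
abbrev Vec (n : ℕ) := Fin (n + 2) → ℂ

/-- Polynomials in the homogeneous coordinates of `ℙ^{n+1}`. -/
abbrev Frm (n : ℕ) := MvPolynomial (Fin (n + 2)) ℂ

/-- Polynomials in the coefficients of forms. -/
abbrev Cof (n : ℕ) := MvPolynomial ((Fin (n + 2)) →₀ ℕ) ℂ

/-- Forms whose coefficients are polynomials in the coefficients of a variable form `F`. -/
abbrev Fam (n : ℕ) := MvPolynomial (Fin (n + 2)) (Cof n)

/-- Value of a polynomial in the coefficients at the form `F`. -/
noncomputable def val {n : ℕ} (P : Cof n) (F : Frm n) : ℂ := eval (fun m => F.coeff m) P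

/-- The member at `F` of a family of forms. -/
noncomputable def spec {n : ℕ} (G : Fam n) (F : Frm n) : Frm n :=
  MvPolynomial.map (eval (fun m => F.coeff m)) G

/-- `Q F` holds for all forms `F` of degree `d` outside a proper Zariski closed set. -/
def General (n d : ℕ) (Q : Frm n → Prop) : Prop :=
  ∃ P : Cof n, (∃ F₀ : Frm n, F₀.IsHomogeneous d ∧ val P F₀ ≠ 0) ∧
    ∀ F : Frm n, F.IsHomogeneous d → val P F ≠ 0 → Q F

/-- `g` is an entire curve in `{F = 0}`, lifted to the cone without zeros. -/
def Entire {n : ℕ} (F : Frm n) (g : ℂ → Vec n) : Prop :=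
  Differentiable ℂ g ∧ (∀ z, g z ≠ 0) ∧ ∀ z, eval (g z) F = 0

/-- `g` is constant in the projective space. -/
def IsConst {n : ℕ} (g : ℂ → Vec n) : Prop := ∀ z, ∃ c : ℂ, g z = c • g 0

/-- Kobayashi: for general `F` of degree `d` every entire curve in `{F = 0}` is constant. -/
def Hyp (n d : ℕ) : Prop := General n d fun F => ∀ g, Entire F g → IsConst g

/-- Green-Griffiths-Lang, in the algebraic form: there is a form `G_F`, algebraic in `F`, such that for
general `F` of degree `d` it does not vanish identically on `{F = 0}` and all non constant entire curves in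
`{F = 0}` lie in `{G_F = 0}`. -/
def GGL (n d : ℕ) : Prop :=
  ∃ (G : Fam n) (e : ℕ), G.IsHomogeneous e ∧
    General n d fun F => ¬ F ∣ spec G F ∧
      ∀ g, Entire F g → ¬ IsConst g → ∀ z, eval (g z) (spec G F) = 0

/-- `f` is an analytic curve germ in the cone of `X_F` whose image in `X_F` has non zero derivative at `0`
(a regular jet). -/
def Germ {n : ℕ} (F : Frm n) (f : ℂ → Vec n) : Prop :=
  AnalyticAt ℂ f 0 ∧ (∀ᶠ t in 𝓝 (0 : ℂ), eval (f t) F = 0) ∧ LinearIndependent ℂ ![f 0, deriv f 0]

/-- Weights of the coordinates of the fibre `ℂ^{kn}` of the space of `k`-jets: `f^{(j)}` has weight `j`. -/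
def wt (n k : ℕ) (i : Fin k × Fin n) : ℕ := (i.1 : ℕ) + 1

/-- The polynomial `Q` vanishes to order at least `p` at the point `c`. -/
def VanAt {n k : ℕ} (p : ℕ) (Q : MvPolynomial (Fin k × Fin n) ℂ) (c : Fin k × Fin n → ℂ) : Prop :=
  ∀ a : Fin k × Fin n →₀ ℕ, a.degree < p → coeff a (aeval (fun i => X i + C (c i)) Q) = 0

/-- `F` is a form of degree `d` with `P ≠ 0` at `F`. -/
def On {n : ℕ} (d : ℕ) (P : Cof n) (F : Frm n) : Prop := F.IsHomogeneous d ∧ val P F ≠ 0

/-- Published facts about the sections of `E_{k,m} ⊗ O(-b)` on general hypersurfaces of degree `d ≥ k` and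
dimension `n`. `h` is the dimension of `H⁰(X_F, E_{k,m} ⊗ O(-b))` for general `F`. -/
structure Family (n k d m b h : ℕ) where
  /-- The family lives over the open set `U = {P ≠ 0}` of smooth forms of degree `d`, on which the dimension
  of `H⁰(X_F, E_{k,m} ⊗ O(-b))` is `h` and a basis extends (semicontinuity, Hartshorne III.12). -/
  P : Cof n
  ne : ∃ F₀ : Frm n, F₀.IsHomogeneous d ∧ val P F₀ ≠ 0
  /-- `Sec c`: regular sections of `O(-c)`, `c` an integer, over the space `J` of `k`-jets of curves in the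
  hypersurfaces `X_F`, `F` in `U` (vertical jets of the universal hypersurface). -/
  Sec : ℤ → Type
  /-- Order of vanishing of a section at the `k`-jet of the germ `f` in `X_F`, on the total space `J`. -/
  ord : (c : ℤ) → Frm n → (ℂ → Vec n) → Sec c → ℕ∞
  /-- Slanted vector fields: Siu 2004, Paun 2008, Merker 2009, Diverio-Merker-Rousseau 2010, and in this form
  Darondeau (Math. Z. 282, 2016): for `d ≥ k` the bundle `T_J ⊗ O(5k-2)` is generated by global sections at
  every jet with non zero first derivative. They act on sections `σ` of `O(-c)` by `V(σ ℓ^c) / ℓ^{c-1}`, with a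
  linear form `ℓ ≠ 0` at the jet; if `σ` vanishes there to finite order `μ > 0`, one of these sections vanishes
  to order `μ - 1`. -/
  lower : ∀ (c : ℤ) (F : Frm n) (f : ℂ → Vec n) (σ : Sec c), On d P F → Germ F f →
    ord c F f σ ≠ 0 → ord c F f σ ≠ ⊤ → ∃ σ' : Sec (c - (5 * k - 1)), ord _ F f σ' + 1 = ord c F f σ
  /-- Vanishing theorem (Green-Griffiths 1979, Siu-Yeung 1997, Demailly 1997): jet polynomials with values in
  a negative bundle vanish on the jets of entire curves. -/
  vanish : ∀ (c : ℤ) (F : Frm n) (g : ℂ → Vec n) (z : ℂ) (σ : Sec c), 0 < c → On d P F → Entire F g →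
    LinearIndependent ℂ ![g z, deriv g z] → ord c F (fun t => g (z + t)) σ ≠ 0
  /-- The space spanned by the extended basis; it restricts isomorphically to
  `H⁰(X_F, E_{k,m} ⊗ O(-b))`, `F` in `U`. -/
  H : Type
  [grp : AddCommGroup H]
  [mod : Module ℂ H]
  [fin : Module.Finite ℂ H]
  rank : Module.finrank ℂ H = h
  sec : H → Sec b
  /-- Restriction of a section to the fibre `ℂ^{kn}` of the space of jets over a point of `X_F` with
  coordinate vector `x`, in local coordinates of `X_F` at the point. -/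
  ev : Frm n → Vec n → H →ₗ[ℂ] MvPolynomial (Fin k × Fin n) ℂ
  ev_wt : ∀ (F : Frm n) (x : Vec n) (σ : H), IsWeightedHomogeneous (wt n k) (ev F x σ) m
  /-- The coordinates in the fibre of the `k`-jet of a germ. -/
  co : Frm n → (ℂ → Vec n) → Fin k × Fin n → ℂ
  /-- The order on the total space is at most the order on the fibre. -/
  ev_ord : ∀ (F : Frm n) (f : ℂ → Vec n) (σ : H) (p : ℕ), On d P F → Germ F f →
    (p : ℕ∞) ≤ ord b F f (sec σ) → VanAt p (ev F (f 0) σ) (co F f)
  /-- The hypersurfaces are smooth, so they are irreducible. -/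
  irr : ∀ F : Frm n, On d P F → Irreducible F
  /-- Since `Ω_X = Λ^{n-1} T_X ⊗ K_X ⊂ Λ² Ω_ℙ (d) ⊂ ⨁ O(d-2)`, the quotients of the filtration of
  `E_{k,m} ⊗ O(-b)` of Green and Griffiths (tensor products of symmetric powers of `Ω_X`) lie in sums of copies
  of `O(a)`, `a = (d-2)m - b`. So a section vanishing on a set `Z` of points of `X_F` is zero if all the forms
  of degree `a` vanishing on `Z` vanish on `X_F`. -/
  uniq : ∀ (F : Frm n) (Z : Set (Vec n)) (σ : H), On d P F →
    (∀ x ∈ Z, x ≠ 0 ∧ eval x F = 0 ∧ ev F x σ = 0) →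
    (∀ A : Frm n, A.IsHomogeneous ((d - 2) * m - b) → (∀ x ∈ Z, eval x A = 0) → F ∣ A) → σ = 0
  /-- Chevalley's theorem for the set of points over which some regular jet is a common zero of order `> p`
  of all sections, a subset of the (irreducible) universal hypersurface over `U`: either it is contained in
  the zero set of a family of forms, or it contains the general point of the general `X_F`. -/
  chevalley : ∀ p : ℕ,
    (∃ (G : Fam n) (e : ℕ), G.IsHomogeneous e ∧ General n d (fun F => ¬ F ∣ spec G F) ∧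
      ∀ (F : Frm n) (f : ℂ → Vec n), On d P F → Germ F f →
        (∀ σ : H, ((p + 1 : ℕ) : ℕ∞) ≤ ord b F f (sec σ)) → eval (f 0) (spec G F) = 0) ∨
    General n d (fun F => ∃ G : Frm n, ¬ F ∣ G ∧
      ∀ x : Vec n, x ≠ 0 → eval x F = 0 → eval x G ≠ 0 → ∃ f : ℂ → Vec n, Germ F f ∧ f 0 = x ∧
        ∀ σ : H, ((p + 1 : ℕ) : ℕ∞) ≤ ord b F f (sec σ))

attribute [instance] Family.grp Family.mod Family.fin

/-- `∏_{j ≤ k} (1 + d x/j) / (1 + x/j)^{n+2}`, the total Segre class of the weighted sum of `k` copies of the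
tangent bundle of `X_F` (`x` is the hyperplane class). -/
noncomputable def segre (n k d : ℕ) : PowerSeries ℝ :=
  ∏ j ∈ Finset.range k, (1 + PowerSeries.C ((d : ℝ) / (j + 1)) * PowerSeries.X) *
    ((1 + PowerSeries.C ((1 : ℝ) / (j + 1)) * PowerSeries.X)⁻¹) ^ (n + 2)

/-- The dimension `N = n + kn - 1` of the space of projectivised `k`-jets. -/
def dimN (n k : ℕ) : ℕ := n + k * n - 1

/-- `(O(1) + 2h)^N` in terms of the numbers `I i = O(1)^{N-i} h^i`. -/
noncomputable def vol0 (n k : ℕ) (I : ℕ → ℝ) : ℝ :=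
  ∑ i ∈ Finset.range (n + 1), ((dimN n k).choose i : ℝ) * 2 ^ i * I i

/-- `(O(1) + 2h)^{N-1} h` in terms of the numbers `I i = O(1)^{N-i} h^i`. -/
noncomputable def vol1 (n k : ℕ) (I : ℕ → ℝ) : ℝ :=
  ∑ i ∈ Finset.range n, ((dimN n k - 1).choose i : ℝ) * 2 ^ i * I (i + 1)

/-- The jet differentials of order `k` on general hypersurfaces of degree `d` and dimension `n`. -/
structure Jets (n k d : ℕ) where
  /-- `h0 m b`: the dimension of `H⁰(X_F, E_{k,m} ⊗ O(-b))` for general `F`. -/
  h0 : ℕ → ℕ → ℕ
  fam : ∀ m b : ℕ, Family n k d m b (h0 m b)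

/-- Published facts about jet differentials on general hypersurfaces of degree `d` and dimension `n`. -/
structure JetFacts (n k d : ℕ) extends Jets n k d where
  /-- `I i = O(1)^{N-i} h^i` on the space of projectivised `k`-jets of `X_F` (Green-Griffiths 1979). -/
  I : ℕ → ℝ
  I_eq : ∀ i ≤ n, I i = (d : ℝ) / ((k.factorial : ℝ) ^ n) * PowerSeries.coeff (n - i) (segre n k d)
  /-- `O(1) + 2h` and `h` are nef, since `Ω_X(2)` is globally generated, so the algebraic Morse inequality
  (Siu 1993, Demailly 1996, Trapani 1995) bounds the sections of multiples of `(O(1) + 2h) - t h` from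
  below. -/
  morse : ∀ t : ℚ, 0 ≤ t → ∀ ε : ℝ, 0 < ε → ∃ D : ℕ, 0 < D ∧ ∃ m₀ : ℕ, ∀ m : ℕ, m₀ ≤ m → D ∣ m →
    ∀ b : ℕ, (b : ℚ) = (t - 2) * m →
      (vol0 n k I - dimN n k * t * vol1 n k I - ε) * (m : ℝ) ^ dimN n k / (dimN n k).factorial ≤ h0 m b

/-- The published facts used. -/
structure Published where
  jets : ∀ n k d : ℕ, 2 ≤ n → 1 ≤ k → n + k ≤ d → JetFacts n k d
  /-- Riedl-Yang (J. Algebraic Geom. 31, 2022): Green-Griffiths-Lang for general hypersurfaces of degree `d`
  and dimension `2n - 1` implies that general hypersurfaces of degree `d` and dimension `n` are hyperbolic. -/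
  riedl_yang : ∀ n d : ℕ, 2 ≤ n → GGL (2 * n - 1) d → Hyp n d

end Pool.Agent.H47.KB
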