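import Pool.Agent.H47.KB.Core

set_option autoImplicit false

open Filter Topology

namespace Pool.Agent.H47.KB

/-- The bound for the number of monomials of weight `m` and degree at least `q m`, without `m^M`. -/
noncomputable def cnt (n k : ℕ) (q : ℝ) : ℝ :=
  Real.exp ((k * n - 1 : ℕ) - q * (k * n - 1 : ℕ) / 2) / ((k * n - 1 : ℕ) : ℝ) ^ (k * n - 1) *
    ((2 * Real.sqrt k) ^ n / (2 * (k.factorial : ℝ) ^ n))

theorem cnt_nonneg (n k : ℕ) (q : ℝ) : 0 ≤ cnt n k q := by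
  unfold cnt
  positivity

/-- Upper bound for the number of sections, for large `m`. -/
theorem upper (n k d : ℕ) (hn : 1 ≤ n) (hk : 1 ≤ k) (hM : 2 ≤ k * n) (hd : 1 ≤ d) (q κ : ℝ) (hq : 0 ≤ q)
    (hc : cnt n k q * ((d : ℝ) ^ (n + 1) / n.factorial) < κ) :
    ∀ᶠ m : ℕ in atTop, ∀ p a : ℕ, q * m ≤ p → a ≤ d * m →
      ((Nat.card (Mon n k m p) * (d * (a + n).choose n) : ℕ) : ℝ) < κ * (m : ℝ) ^ (n + k * n - 1) := by
  have hB := cnt_nonneg n k q
  have hd0 : (0 : ℝ) < d := by exact_mod_cast hd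
  obtain ⟨ε, hε, hε'⟩ : ∃ ε : ℝ, 0 < ε ∧
      (1 + ε) * (cnt n k q) * (d * (((1 + ε) * d) ^ n / n.factorial)) < κ := by
    have ht : Tendsto (fun ε : ℝ => (1 + ε) * (cnt n k q) * (d * (((1 + ε) * d) ^ n / n.factorial)))
        (𝓝[>] 0) (𝓝 ((1 + 0) * (cnt n k q) * (d * (((1 + 0) * d) ^ n / n.factorial)))) := by
      apply Tendsto.mono_left _ nhdsWithin_le_nhds
      apply Continuous.tendsto
      fun_prop
    have hlt : (1 + 0) * (cnt n k q) * (d * (((1 + 0) * d) ^ n / n.factorial)) < κ := by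
      refine lt_of_eq_of_lt ?_ hc
      rw [pow_succ]
      ring
    have h1 := ht.eventually_lt_const hlt
    have h2 : ∀ᶠ ε : ℝ in 𝓝[>] 0, 0 < ε := eventually_mem_nhdsWithin
    obtain ⟨ε, h3, h4⟩ := (h1.and h2).exists
    exact ⟨ε, h4, h3⟩
  have h1 := chern n k hn hk hM q hq ε hε
  have h2 : ∀ᶠ m : ℕ in atTop, (n : ℝ) ≤ ε * d * m := by
    have : Tendsto (fun m : ℕ => ε * d * (m : ℝ)) atTop atTop :=
      Tendsto.const_mul_atTop (by positivity) tendsto_natCast_atTop_atTop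
    exact this.eventually_ge_atTop _
  filter_upwards [h1, h2, eventually_ge_atTop 1] with m h1 h2 hm p a hp ha
  have hm0 : (0 : ℝ) < m := by exact_mod_cast hm
  have h3 := h1 p hp
  have h4 : (((a + n).choose n : ℕ) : ℝ) ≤ ((1 + ε) * d) ^ n * (m : ℝ) ^ n / n.factorial := by
    have h5 : (((a + n).choose n : ℕ) : ℝ) ≤ ((a + n : ℕ) : ℝ) ^ n / n.factorial := Nat.choose_le_pow_div n (a + n)
    refine h5.trans ?_
    rw [← mul_pow]
    have h6 : ((a + n : ℕ) : ℝ) ≤ (1 + ε) * d * m := by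
      push_cast
      have : (a : ℝ) ≤ d * m := by exact_mod_cast ha
      nlinarith
    gcongr
  push_cast
  have hN : n + k * n - 1 = (k * n - 1) + n := by omega
  calc (Nat.card (Mon n k m p) : ℝ) * (d * ((a + n).choose n : ℕ))
      ≤ ((1 + ε) * cnt n k q * (m : ℝ) ^ (k * n - 1)) *
        (d * (((1 + ε) * d) ^ n * (m : ℝ) ^ n / n.factorial)) := by
        have h7 : (Nat.card (Mon n k m p) : ℝ) ≤ (1 + ε) * cnt n k q * (m : ℝ) ^ (k * n - 1) := h3
        gcongr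
    _ = ((1 + ε) * (cnt n k q) * (d * (((1 + ε) * d) ^ n / n.factorial))) *
        (m : ℝ) ^ (n + k * n - 1) := by
        rw [hN, pow_add]
        ring
    _ < κ * (m : ℝ) ^ (n + k * n - 1) := by
        gcongr

/-- CORE: many sections of `E_{k,m} ⊗ O(-τ m)` give Green-Griffiths-Lang, if `q(5k-1) < τ`. -/
theorem core {n k d : ℕ} (J : Jets n k d) (hn : 1 ≤ n) (hk : 1 ≤ k) (hM : 2 ≤ k * n) (hd : 1 ≤ d)
    (q κ : ℝ) (τ : ℚ) (hq : 0 ≤ q) (hτ : q * (5 * k - 1) < τ)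
    (hV : ∃ D : ℕ, 0 < D ∧ ∃ m₀ : ℕ, ∀ m : ℕ, m₀ ≤ m → D ∣ m → ∀ b : ℕ, (b : ℚ) = τ * m →
      κ * (m : ℝ) ^ (n + k * n - 1) ≤ J.h0 m b)
    (hc : cnt n k q * ((d : ℝ) ^ (n + 1) / n.factorial) < κ) : GGL n d := by
  obtain ⟨D, hD, m₀, hV⟩ := hV
  have hk' : (1 : ℝ) ≤ k := by exact_mod_cast hk
  have hτ0 : 0 < τ := by
    have : (0 : ℝ) < τ := lt_of_le_of_lt (mul_nonneg hq (by linarith)) hτ
    exact_mod_cast this
  obtain ⟨m₁, h1⟩ := eventually_atTop.1 (upper n k d hn hk hM hd q κ hq hc)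
  -- choice of `m`
  set m : ℕ := D * τ.den * (m₀ + m₁ + 1) with hm
  have hDd : 1 ≤ D * τ.den := Nat.mul_pos hD τ.den_pos
  have hmm : m₀ + m₁ + 1 ≤ m := by
    rw [hm]
    exact Nat.le_mul_of_pos_left _ hDd
  set b : ℕ := D * τ.num.toNat * (m₀ + m₁ + 1) with hb
  have hbτ : (b : ℚ) = τ * m := by
    have h2 : (τ.num.toNat : ℚ) = τ.num := by
      have : ((τ.num.toNat : ℤ) : ℚ) = τ.num := by
        rw [Int.toNat_of_nonneg (Rat.num_nonneg.2 hτ0.le)]
      exact_mod_cast this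
    have h3 : τ * τ.den = τ.num := Rat.mul_den_eq_num τ
    rw [hb, hm]
    push_cast
    rw [h2, ← h3]
    ring
  have hV' := hV m (by omega) ⟨τ.den * (m₀ + m₁ + 1), by rw [hm]; ring⟩ b hbτ
  have h1' := h1 m (by omega)
  set p : ℕ := ⌊q * m⌋₊ with hp
  have hp1 : (p : ℝ) ≤ q * m := Nat.floor_le (by positivity)
  have hp2 : q * m ≤ ((p + 1 : ℕ) : ℝ) := by
    push_cast
    exact (Nat.lt_floor_add_one _).le
  have hm0 : (0 : ℝ) < m := by
    have : 1 ≤ m := by omega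
    exact_mod_cast this
  refine low (J.fam m b) hk p ?_ ?_
  · have h2 : (p : ℝ) * (5 * k - 1) < b := by
      have h3 : (b : ℝ) = τ * m := by exact_mod_cast hbτ
      rw [h3]
      calc (p : ℝ) * (5 * k - 1) ≤ q * m * (5 * k - 1) := by
            have : (0 : ℝ) ≤ 5 * k - 1 := by linarith
            gcongr
        _ = q * (5 * k - 1) * m := by ring
        _ < τ * m := by gcongr
    exact_mod_cast h2
  · intro hyes
    have h2 := high (J.fam m b) hd p hyes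
    have h3 := h1' (p + 1) ((d - 2) * m - b) hp2 (by
      refine (Nat.sub_le _ _).trans ?_
      exact Nat.mul_le_mul_right _ (Nat.sub_le _ _))
    have h4 : (J.h0 m b : ℝ) ≤
        ((Nat.card (Mon n k m (p + 1)) * (d * ((d - 2) * m - b + n).choose n) : ℕ) : ℝ) := by
      exact_mod_cast h2
    linarith

end Pool.Agent.H47.KB
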