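import Pool.Agent.H47.KB.Mult
import Pool.Agent.H97.KB.Asymp

set_option autoImplicit false

open Filter Topology

namespace Pool.Agent.H47.KB

/-- CHERN: number of monomials of weight `m` and degree at least `q m`, with `M = k n - 1`. -/
theorem chern (n k : ℕ) (hn : 1 ≤ n) (hk : 1 ≤ k) (hM : 2 ≤ k * n) (q : ℝ) (hq : 0 ≤ q) (ε : ℝ) (hε : 0 < ε) :
    ∀ᶠ m : ℕ in atTop, ∀ p : ℕ, q * m ≤ p → (Nat.card (Mon n k m p) : ℝ) ≤
      (1 + ε) * (Real.exp ((k * n - 1 : ℕ) - q * (k * n - 1 : ℕ) / 2) / ((k * n - 1 : ℕ) : ℝ) ^ (k * n - 1) *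
        ((2 * Real.sqrt k) ^ n / (2 * (k.factorial : ℝ) ^ n))) * (m : ℝ) ^ (k * n - 1) := by
  filter_upwards [H97KB.jetCount_asymp n k (k * n - 1) hn hk (by omega) (by omega) q ε hε] with m h p hp
  have := h p hp
  rw [← mul_assoc] at this
  exact this

/-- The number of all monomials of weight `m` is at least `m ^ M / (M! (k!) ^ n)`. -/
theorem rank_ge (n k : ℕ) (hn : 1 ≤ n) (hk : 1 ≤ k) (m : ℕ) :
    (m : ℝ) ^ (k * n - 1) / ((k * n - 1).factorial * (k.factorial : ℝ) ^ n) ≤ (Nat.card (Mon n k m 0) : ℝ) :=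
  H97KB.jetCount_ge n k (k * n - 1) hn hk
    (by have : 1 ≤ k * n := Nat.one_le_iff_ne_zero.mpr (by positivity); omega) m

end Pool.Agent.H47.KB
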