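import Pool.Agent.H47.KB.Defs

set_option autoImplicit false

open MvPolynomial Filter Topology

namespace Pool.Agent.H47.KB

/-- CURVE: an entire curve which is not constant in the projective space and not in `{G = 0}` is regular at
some point outside `{G = 0}`. -/
theorem curve {n : ℕ} (g : ℂ → Vec n) (hg : Differentiable ℂ g) (h0 : ∀ z, g z ≠ 0) (hc : ¬ IsConst g)
    (G : Frm n) (z₀ : ℂ) (hG : eval (g z₀) G ≠ 0) :
    ∃ z, eval (g z) G ≠ 0 ∧ LinearIndependent ℂ ![g z, deriv g z] := by
  by_contra hcon
  push Not at hcon
  have hgi : ∀ i, Differentiable ℂ fun z => g z i := fun i => differentiable_pi.mp hg i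
  have hd : ∀ z i, deriv g z i = deriv (fun w => g w i) z := fun z i => by
    rw [deriv_pi fun i => hgi i z]
  have han : ∀ i, AnalyticOnNhd ℂ (fun z => g z i) Set.univ := fun i z _ => (hgi i).analyticAt z
  have hand : ∀ i, AnalyticOnNhd ℂ (fun z => deriv (fun w => g w i) z) Set.univ := fun i z _ =>
    ((hgi i).analyticAt z).deriv
  -- the open set where `G` does not vanish
  have hopen : ∀ᶠ z in 𝓝 z₀, eval (g z) G ≠ 0 := by
    have hcont : Continuous fun z => eval (g z) G :=
      (MvPolynomial.continuous_eval G).comp hg.continuous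
    exact hcont.continuousAt.eventually_ne hG
  -- the minors vanish near `z₀`, hence everywhere
  have hW : ∀ i j z, g z i * deriv (fun w => g w j) z - g z j * deriv (fun w => g w i) z = 0 := by
    intro i j
    have h1 : AnalyticOnNhd ℂ (fun z => g z i * deriv (fun w => g w j) z
        - g z j * deriv (fun w => g w i) z) Set.univ :=
      ((han i).mul (hand j)).sub ((han j).mul (hand i))
    have h2 : (fun z => g z i * deriv (fun w => g w j) z - g z j * deriv (fun w => g w i) z)
        =ᶠ[𝓝 z₀] fun _ => (0 : ℂ) := by
      filter_upwards [hopen] with z hz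
      have h3 := hcon z hz
      rw [LinearIndependent.pair_iff' (h0 z)] at h3
      push Not at h3
      obtain ⟨a, ha⟩ := h3
      rw [← hd, ← hd, ← ha]
      simp only [Pi.smul_apply, smul_eq_mul]
      ring
    have h4 := h1.eq_of_eventuallyEq analyticOnNhd_const h2
    intro z
    exact congrFun h4 z
  -- conclusion
  apply hc
  obtain ⟨i, hi⟩ : ∃ i, g 0 i ≠ 0 := by
    by_contra h
    push Not at h
    exact h0 0 (funext h)
  have hne : ∀ᶠ z in 𝓝 (0 : ℂ), g z i ≠ 0 := (hgi i).continuous.continuousAt.eventually_ne hi
  have hj : ∀ j z, g z j * g 0 i = g z i * g 0 j := by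
    intro j
    -- the quotient is locally constant
    obtain ⟨r, hr, hball⟩ := Metric.eventually_nhds_iff_ball.mp hne
    have hq : ∀ z ∈ Metric.ball (0 : ℂ) r, HasDerivAt (fun w => g w j / g w i) 0 z := by
      intro z hz
      have h5 := ((hgi j z).hasDerivAt).div ((hgi i z).hasDerivAt) (hball z hz)
      have h6 : (deriv (fun w => g w j) z * g z i - g z j * deriv (fun w => g w i) z) / g z i ^ 2
          = 0 := by
        rw [div_eq_zero_iff]
        left
        have h7 := hW i j z
        linear_combination h7
      rw [h6] at h5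
      exact h5
    have hconst : ∀ z ∈ Metric.ball (0 : ℂ) r, g z j / g z i = g 0 j / g 0 i := by
      intro z hz
      have h8 := (convex_ball (0 : ℂ) r).is_const_of_fderivWithin_eq_zero (𝕜 := ℂ)
        (f := fun w => g w j / g w i)
        (fun w hw => (hq w hw).differentiableAt.differentiableWithinAt)
        (fun w hw => by
          rw [fderivWithin_of_isOpen Metric.isOpen_ball hw]
          have h9 := (hq w hw).hasFDerivAt.fderiv
          rw [h9]
          ext
          simp)
        hz (Metric.mem_ball_self hr)
      exact h8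
    have h10 : AnalyticOnNhd ℂ (fun z => g z j * g 0 i) Set.univ := (han j).mul analyticOnNhd_const
    have h11 : AnalyticOnNhd ℂ (fun z => g z i * g 0 j) Set.univ := (han i).mul analyticOnNhd_const
    have h12 : (fun z => g z j * g 0 i) =ᶠ[𝓝 (0 : ℂ)] fun z => g z i * g 0 j := by
      filter_upwards [Metric.ball_mem_nhds (0 : ℂ) hr] with z hz
      have h13 := hconst z hz
      rw [div_eq_div_iff (hball z hz) hi] at h13
      linear_combination h13
    intro z
    exact congrFun (h10.eq_of_eventuallyEq h11 h12) z
  intro z
  refine ⟨g z i / g 0 i, ?_⟩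
  ext j
  simp only [Pi.smul_apply, smul_eq_mul]
  rw [div_mul_eq_mul_div, eq_div_iff hi]
  exact hj j z

end Pool.Agent.H47.KB
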