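import Pool.Agent.H47.KB.Defs

set_option autoImplicit false

open MvPolynomial Filter Topology Finset

namespace Pool.Agent.H47.KB

section linalg

variable {V : Type*} [AddCommGroup V] [Module ℂ V] [FiniteDimensional ℂ V] {ι : Type*}

/-- Finitely many of a family of functionals have the same common kernel. -/
lemma exists_finset_ker (φ : ι → V →ₗ[ℂ] ℂ) (K : Submodule ℂ V)
    (hK : ∀ v, v ∈ K ↔ ∀ i, φ i v = 0) :
    ∃ Z : Finset ι, Z.card + Module.finrank ℂ K ≤ Module.finrank ℂ V ∧
      ∀ v, (∀ i ∈ Z, φ i v = 0) → v ∈ K := by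
  classical
  let I : Finset ι → Submodule ℂ V := fun Z => ⨅ i ∈ Z, LinearMap.ker (φ i)
  have hI : ∀ Z v, v ∈ I Z ↔ ∀ i ∈ Z, φ i v = 0 := by
    intro Z v
    simp [I, Submodule.mem_iInf]
  let P : Finset ι → Prop := fun Z => Z.card + Module.finrank ℂ (I Z) ≤ Module.finrank ℂ V
  have hP0 : P ∅ := by
    have h := Submodule.finrank_le (I ∅)
    simpa [P] using h
  have hex : ∃ m : ℕ, ∃ Z : Finset ι, P Z ∧ Module.finrank ℂ (I Z) = m := ⟨_, ∅, hP0, rfl⟩
  obtain ⟨Z, hZ, hZm⟩ := Nat.find_spec hex
  have hmin : ∀ Z', P Z' → Module.finrank ℂ (I Z) ≤ Module.finrank ℂ (I Z') := fun Z' h => by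
    rw [hZm]
    exact Nat.find_min' hex ⟨Z', h, rfl⟩
  have hKI : K ≤ I Z := fun v hv => (hI Z v).2 fun i _ => (hK v).1 hv i
  have hIK : I Z ≤ K := by
    intro v hv
    by_contra hvK
    rw [hK] at hvK
    push Not at hvK
    obtain ⟨i, hi⟩ := hvK
    have h1 : I (insert i Z) < I Z := by
      refine lt_of_le_of_ne (fun w hw => (hI Z w).2 fun j hj =>
        (hI _ w).1 hw j (mem_insert_of_mem hj)) fun h => hi ?_
      rw [← h] at hv
      exact (hI _ v).1 hv i (mem_insert_self _ _)
    have h2 := Submodule.finrank_lt_finrank_of_lt h1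
    have h3 : (insert i Z).card ≤ Z.card + 1 := card_insert_le _ _
    have h4 : P (insert i Z) := by
      simp only [P] at hZ ⊢
      omega
    have h5 := hmin _ h4
    omega
  refine ⟨Z, ?_, fun v hv => hIK ((hI Z v).2 hv)⟩
  have h := Submodule.finrank_mono hKI
  simp only [P] at hZ
  omega

/-- A finite dimensional space whose elements are determined by their values at the points of a
finite set has dimension at most the sum of the ranks. -/
lemma finrank_le_of_points {W : Type*} [AddCommGroup W] [Module ℂ W] [FiniteDimensional ℂ W]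
    {ι : Type*} {E : ι → Type*} [∀ i, AddCommGroup (E i)] [∀ i, Module ℂ (E i)]
    (ev : ∀ i, W →ₗ[ℂ] E i) (Z : Finset ι) (r : ℕ)
    (hr : ∀ i ∈ Z, Module.finrank ℂ (LinearMap.range (ev i)) ≤ r)
    (h0 : ∀ v, (∀ i ∈ Z, ev i v = 0) → v = 0) : Module.finrank ℂ W ≤ Z.card * r := by
  classical
  let L : W →ₗ[ℂ] (∀ i : Z, LinearMap.range (ev i.1)) :=
    LinearMap.pi fun i => (ev i.1).rangeRestrict
  have hL : Function.Injective L := by
    rw [← LinearMap.ker_eq_bot, LinearMap.ker_eq_bot']
    intro v hv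
    refine h0 v fun i hi => ?_
    have := congrFun hv ⟨i, hi⟩
    exact congrArg Subtype.val this
  refine (LinearMap.finrank_le_finrank_of_injective hL).trans ?_
  rw [Module.finrank_pi_fintype]
  refine (sum_le_card_nsmul _ _ r fun i _ => hr i.1 i.2).trans ?_
  simp

end linalg

/-- The forms of degree `a` and their coefficients. -/
noncomputable def formsEquiv (σ : Type*) [Fintype σ] [DecidableEq σ] (a : ℕ) :
    homogeneousSubmodule σ ℂ a ≃ₗ[ℂ] ((univ : Finset σ).finsuppAntidiag a → ℂ) where
  toFun Q := fun s => coeff s.1 Q.1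
  map_add' _ _ := by funext s; simp
  map_smul' _ _ := by funext s; simp
  invFun f := ⟨∑ s : (univ : Finset σ).finsuppAntidiag a, monomial s.1 (f s),
    Submodule.sum_mem _ fun s _ => by
      refine isHomogeneous_monomial _ ?_
      have h := (mem_finsuppAntidiag.1 s.2).1
      rw [Finsupp.degree_eq_sum]
      exact h⟩
  left_inv Q := by
    apply Subtype.ext
    ext s
    simp only [coeff_sum, coeff_monomial]
    by_cases hs : s ∈ (univ : Finset σ).finsuppAntidiag a
    · rw [Finset.sum_eq_single ⟨s, hs⟩]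
      · simp
      · intro b _ hb
        rw [if_neg]
        intro h
        exact hb (Subtype.ext h)
      · intro h
        exact absurd (mem_univ _) h
    · rw [Finset.sum_eq_zero]
      · by_contra hc
        apply hs
        rw [mem_finsuppAntidiag]
        have h1 : s.degree = a := by
          have h2 := Q.2 (Ne.symm hc)
          rw [Finsupp.degree_eq_weight_one]
          exact h2
        refine ⟨?_, by simp⟩
        rw [← h1, Finsupp.degree_eq_sum]
      · intro b _
        rw [if_neg]
        intro h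
        exact hs (h ▸ b.2)
  right_inv f := by
    funext s
    simp only [coeff_sum, coeff_monomial]
    rw [Finset.sum_eq_single s]
    · simp
    · intro b _ hb
      rw [if_neg]
      intro h
      exact hb (Subtype.ext h)
    · intro h
      exact absurd (mem_univ _) h

/-- The number of forms of degree `a`. -/
lemma finrank_homogeneous (n a : ℕ) :
    Module.finrank ℂ (homogeneousSubmodule (Fin (n + 2)) ℂ a) = (a + (n + 1)).choose (n + 1) := by
  rw [LinearEquiv.finrank_eq (formsEquiv (Fin (n + 2)) a), Module.finrank_fintype_fun_eq_card,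
    Fintype.card_coe, card_finsuppAntidiag_nat_eq_choose]
  rw [card_univ, Fintype.card_fin, show n + 2 + a - 1 = a + (n + 1) by omega]
  rw [Nat.choose_symm_of_eq_add (show a + (n + 1) = a + (n + 1) from rfl)]

instance finite_forms (n a : ℕ) : FiniteDimensional ℂ (homogeneousSubmodule (Fin (n + 2)) ℂ a) :=
  Module.Finite.equiv (formsEquiv (Fin (n + 2)) a).symm

lemma choose_sub_le (n d a : ℕ) (h : d ≤ a) :
    (a + (n + 1)).choose (n + 1) ≤ (a - d + (n + 1)).choose (n + 1) + d * (a + n).choose n := by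
  induction d with
  | zero => simp
  | succ d ih =>
    have h1 := ih (by omega)
    obtain ⟨b, rfl⟩ : ∃ b, a = b + (d + 1) := ⟨a - (d + 1), by omega⟩
    have h2 : b + (d + 1) - d + (n + 1) = (b + n + 1) + 1 := by omega
    have h3 : b + (d + 1) - (d + 1) + (n + 1) = b + n + 1 := by omega
    rw [h2, Nat.choose_succ_succ] at h1
    rw [h3]
    have h4 : (b + n + 1).choose n ≤ (b + (d + 1) + n).choose n :=
      Nat.choose_le_choose n (by omega)
    nlinarith

lemma choose_le (n d a : ℕ) (h : a < d) :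
    (a + (n + 1)).choose (n + 1) ≤ d * (a + n).choose n := by
  have h1 := choose_sub_le n a a le_rfl
  rw [Nat.sub_self, zero_add, Nat.choose_self] at h1
  have h2 : 1 ≤ (a + n).choose n := Nat.choose_pos (by omega)
  nlinarith

/-- Nullstellensatz and dimension count, without the condition `x ≠ 0`. -/
theorem exists_points {n d : ℕ} (a : ℕ) {F G : Frm n}
    (hF : F.IsHomogeneous d) (hirr : Irreducible F) (hG : ¬ F ∣ G) :
    ∃ Z : Finset (Vec n), Z.card ≤ d * (a + n).choose n ∧
      (∀ z ∈ Z, eval z F = 0 ∧ eval z G ≠ 0) ∧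
      ∀ P : Frm n, P.IsHomogeneous a → (∀ z ∈ Z, eval z P = 0) → F ∣ P := by
  classical
  have hprime : Prime F := hirr.prime
  let T : Type := {z : Vec n // eval z F = 0 ∧ eval z G ≠ 0}
  have hnull : ∀ P : Frm n, (∀ z : T, eval z.1 P = 0) → F ∣ P := by
    intro P hP
    have h1 : P * G ∈ vanishingIdeal ℂ (zeroLocus ℂ (Ideal.span {F})) := by
      rw [mem_vanishingIdeal_iff]
      intro z hz
      have hz' : eval z F = 0 := (mem_zeroLocus_iff.1 hz) F (Ideal.mem_span_singleton_self F)
      show eval z (P * G) = 0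
      rw [map_mul]
      by_cases hg : eval z G = 0
      · rw [hg, mul_zero]
      · rw [hP ⟨z, hz', hg⟩, zero_mul]
    have : (Ideal.span {F}).IsPrime := (Ideal.span_singleton_prime hprime.ne_zero).2 hprime
    rw [IsPrime.vanishingIdeal_zeroLocus, Ideal.mem_span_singleton] at h1
    exact (hprime.dvd_or_dvd h1).resolve_right hG
  let V := homogeneousSubmodule (Fin (n + 2)) ℂ a
  let φ : T → V →ₗ[ℂ] ℂ := fun z => (aeval z.1 : Frm n →ₐ[ℂ] ℂ).toLinearMap ∘ₗ V.subtype
  have hφ : ∀ z v, φ z v = eval z.1 v.1 := fun z v => rfl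
  let K : Submodule ℂ V :=
    { carrier := {v | F ∣ v.1}
      add_mem' := fun h1 h2 => dvd_add h1 h2
      zero_mem' := dvd_zero _
      smul_mem' := fun c v hv => by
        show F ∣ c • v.1
        rw [smul_eq_C_mul]
        exact Dvd.dvd.mul_left hv _ }
  have hK : ∀ v, v ∈ K ↔ ∀ z, φ z v = 0 := by
    intro v
    constructor
    · rintro ⟨w, hw⟩ z
      rw [hφ, hw, map_mul, z.2.1, zero_mul]
    · intro h
      exact hnull v.1 fun z => by rw [← hφ]; exact h z
  obtain ⟨Z, hZ, hZK⟩ := exists_finset_ker φ K hK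
  refine ⟨Z.image Subtype.val, ?_, ?_, ?_⟩
  · refine card_image_le.trans ?_
    have hV : Module.finrank ℂ V = (a + (n + 1)).choose (n + 1) := finrank_homogeneous n a
    rcases lt_or_ge a d with had | had
    · have := choose_le n d a had
      omega
    · have h1 : (a - d + (n + 1)).choose (n + 1) ≤ Module.finrank ℂ K := by
        rw [← finrank_homogeneous n (a - d)]
        let L : homogeneousSubmodule (Fin (n + 2)) ℂ (a - d) →ₗ[ℂ] K :=
          { toFun := fun Q => ⟨⟨F * Q.1, by
              have := hF.mul (show Q.1.IsHomogeneous (a - d) from Q.2)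
              rwa [Nat.add_sub_cancel' had] at this⟩, dvd_mul_right _ _⟩
            map_add' := fun _ _ => by
              apply Subtype.ext; apply Subtype.ext
              exact mul_add _ _ _
            map_smul' := fun _ _ => by
              apply Subtype.ext; apply Subtype.ext
              exact mul_smul_comm _ _ _ }
        refine LinearMap.finrank_le_finrank_of_injective (f := L) fun Q R h => ?_
        have h2 : F * Q.1 = F * R.1 := congrArg (fun x => x.1.1) h
        exact Subtype.ext (mul_left_cancel₀ hprime.ne_zero h2)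
      have h2 := choose_sub_le n d a had
      omega
  · intro z hz
    obtain ⟨w, _, rfl⟩ := mem_image.1 hz
    exact w.2
  · intro P hP hPZ
    exact hZK ⟨P, hP⟩ fun z hz => by
      rw [hφ]
      exact hPZ _ (mem_image_of_mem _ hz)

/-- One of the coordinates is not a multiple of `F`. -/
lemma exists_coord {n : ℕ} {F : Frm n} (hi : Irreducible F) : ∃ i : Fin (n + 2), ¬ F ∣ X i := by
  by_contra h
  push Not at h
  have h0 : Associated F (X 0) := (hi.dvd_irreducible_iff_associated X_prime.irreducible).1 (h 0)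
  have h1 : Associated F (X 1) := (hi.dvd_irreducible_iff_associated X_prime.irreducible).1 (h 1)
  have h2 : (X 0 : Frm n) ∣ X 1 := (h0.symm.trans h1).dvd
  rw [X_dvd_X] at h2
  exact absurd h2 (by simp)

/-- POINTS: at most `dim (S/F)_a` points of `{F = 0}` outside `{G = 0}` determine the forms of degree `a`
modulo `F`. -/
theorem points {n d a : ℕ} (F G : Frm n) (_hd : 1 ≤ d) (hF : F.IsHomogeneous d) (hi : Irreducible F)
    (hG : ¬ F ∣ G) :
    ∃ Z : Finset (Vec n), Z.card ≤ d * (a + n).choose n ∧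
      (∀ x ∈ Z, x ≠ 0 ∧ eval x F = 0 ∧ eval x G ≠ 0) ∧
      ∀ A : Frm n, A.IsHomogeneous a → (∀ x ∈ Z, eval x A = 0) → F ∣ A := by
  obtain ⟨i, hX⟩ := exists_coord hi
  have h1 : ¬ F ∣ G * X i := fun h => (hi.prime.dvd_or_dvd h).elim hG hX
  obtain ⟨Z, h2, h3, h4⟩ := exists_points a hF hi h1
  refine ⟨Z, h2, fun x hx => ?_, h4⟩
  obtain ⟨h5, h6⟩ := h3 x hx
  rw [map_mul, eval_X] at h6
  exact ⟨fun h0 => h6 (by rw [h0]; simp), h5, left_ne_zero_of_mul h6⟩

/-- RANK. -/
theorem rank_le {n k d m b h : ℕ} (T : Family n k d m b h) (hd : 1 ≤ d) (F : Frm n) (r : ℕ)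
    (hF : On d T.P F)
    (hG : ∃ G : Frm n, ¬ F ∣ G ∧ ∀ x : Vec n, x ≠ 0 → eval x F = 0 → eval x G ≠ 0 →
      Module.finrank ℂ (LinearMap.range (T.ev F x)) ≤ r) :
    h ≤ r * (d * ((d - 2) * m - b + n).choose n) := by
  obtain ⟨G, hG1, hG2⟩ := hG
  obtain ⟨Z, hZ1, hZ2, hZ3⟩ := points (a := (d - 2) * m - b) F G hd hF.1 (T.irr F hF) hG1
  have h1 : Module.finrank ℂ T.H ≤ Z.card * r :=
    finrank_le_of_points (fun x => T.ev F x) Z r
      (fun x hx => hG2 x (hZ2 x hx).1 (hZ2 x hx).2.1 (hZ2 x hx).2.2)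
      fun σ hσ => T.uniq F (Z : Set (Vec n)) σ hF
        (fun x hx => ⟨(hZ2 x hx).1, (hZ2 x hx).2.1, hσ x hx⟩) fun A hA hA0 => hZ3 A hA hA0
  rw [T.rank] at h1
  calc h ≤ Z.card * r := h1
    _ = r * Z.card := mul_comm _ _
    _ ≤ _ := Nat.mul_le_mul_left _ hZ1

end Pool.Agent.H47.KB
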