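import Pool.Agent.H47.KB.Gen
import Pool.Agent.H47.KB.Curve
import Pool.Agent.H47.KB.Rank
import Pool.Agent.H47.KB.Chern

set_option autoImplicit false

open MvPolynomial Filter Topology

namespace Pool.Agent.H47.KB

/-- A translate of an entire curve is a germ. -/
theorem germ {n : ℕ} {F : Frm n} {g : ℂ → Vec n} (hg : Entire F g) {z : ℂ}
    (h : LinearIndependent ℂ ![g z, deriv g z]) : Germ F (fun t => g (z + t)) := by
  obtain ⟨h1, -, h3⟩ := hg
  refine ⟨?_, Eventually.of_forall fun t => h3 _, ?_⟩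
  · have : Differentiable ℂ (fun t => g (z + t)) := h1.comp (differentiable_id.const_add z)
    exact this.analyticAt 0
  · have e : deriv (fun t => g (z + t)) 0 = deriv g z := by
      rw [deriv_comp_const_add, add_zero]
    simp only [add_zero, e]
    exact h

/-- Repeated use of the slanted fields. -/
theorem descend {n k d m b h : ℕ} (T : Family n k d m b h) (hk : 1 ≤ k) {F : Frm n} {g : ℂ → Vec n} {z : ℂ}
    (hF : On d T.P F) (hg : Entire F g) (hz : LinearIndependent ℂ ![g z, deriv g z]) :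
    ∀ (p : ℕ) (c : ℤ) (σ : T.Sec c), T.ord c F (fun t => g (z + t)) σ ≤ (p : ℕ∞) →
      (p : ℤ) * (5 * k - 1) < c → False := by
  intro p
  induction p with
  | zero =>
    intro c σ h1 h2
    refine T.vanish c F g z σ (by simpa using h2) hF hg hz ?_
    simpa using h1
  | succ p ih =>
    intro c σ h1 h2
    have hk' : (1 : ℤ) ≤ k := by exact_mod_cast hk
    have hc : 0 < c := by
      refine lt_of_le_of_lt ?_ h2
      have : (0 : ℤ) ≤ 5 * k - 1 := by linarith
      positivity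
    by_cases h0 : T.ord c F (fun t => g (z + t)) σ = 0
    · exact T.vanish c F g z σ hc hF hg hz h0
    · have ht : T.ord c F (fun t => g (z + t)) σ ≠ ⊤ := by
        intro h
        rw [h] at h1
        simp at h1
      obtain ⟨σ', h'⟩ := T.lower c F _ σ hF (germ hg hz) h0 ht
      refine ih _ σ' ?_ ?_
      · rw [← h'] at h1
        push_cast at h1
        exact (ENat.add_le_add_iff_right (by simp)).1 h1
      · push_cast at h2
        linarith

/-- If the sections have low multiplicity at the jets over the general point, then the entire curves are in a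
proper closed set. -/
theorem low {n k d m b h : ℕ} (T : Family n k d m b h) (hk : 1 ≤ k) (p : ℕ) (hp : (p : ℤ) * (5 * k - 1) < b)
    (hno : ¬ General n d (fun F => ∃ G : Frm n, ¬ F ∣ G ∧
      ∀ x : Vec n, x ≠ 0 → eval x F = 0 → eval x G ≠ 0 → ∃ f : ℂ → Vec n, Germ F f ∧ f 0 = x ∧
        ∀ σ : T.H, ((p + 1 : ℕ) : ℕ∞) ≤ T.ord b F f (T.sec σ))) : GGL n d := by
  obtain ⟨G, e, hG, hgen, hall⟩ := (T.chevalley p).resolve_right hno
  have hon : General n d (On d T.P) := ⟨T.P, T.ne, fun F h1 h2 => ⟨h1, h2⟩⟩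
  obtain ⟨Q, hQ0, hQ⟩ := hgen.and hon
  refine ⟨G, e, hG, Q, hQ0, fun F hF hQF => ?_⟩
  obtain ⟨hFG, hOn⟩ := hQ F hF hQF
  refine ⟨hFG, fun g hg hc z₀ => ?_⟩
  by_contra hne
  obtain ⟨z, hz, hli⟩ := curve g hg.1 hg.2.1 hc (spec G F) z₀ hne
  by_cases hs : ∀ σ : T.H, ((p + 1 : ℕ) : ℕ∞) ≤ T.ord b F (fun t => g (z + t)) (T.sec σ)
  · apply hz
    have := hall F _ hOn (germ hg hli) hs
    simpa using this
  · push Not at hs
    obtain ⟨σ, hσ⟩ := hs
    refine descend T hk hOn hg hli p b (T.sec σ) ?_ hp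
    push_cast at hσ
    exact Order.le_of_lt_add_one hσ

/-- The number of sections if the multiplicity is high at jets over the general point. -/
theorem high {n k d m b h : ℕ} (T : Family n k d m b h) (hd : 1 ≤ d) (p : ℕ)
    (hyes : General n d (fun F => ∃ G : Frm n, ¬ F ∣ G ∧
      ∀ x : Vec n, x ≠ 0 → eval x F = 0 → eval x G ≠ 0 → ∃ f : ℂ → Vec n, Germ F f ∧ f 0 = x ∧
        ∀ σ : T.H, ((p + 1 : ℕ) : ℕ∞) ≤ T.ord b F f (T.sec σ))) :
    h ≤ Nat.card (Mon n k m (p + 1)) * (d * ((d - 2) * m - b + n).choose n) := by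
  have hon : General n d (On d T.P) := ⟨T.P, T.ne, fun F h1 h2 => ⟨h1, h2⟩⟩
  obtain ⟨Q, ⟨F, hF, hQF⟩, hQ⟩ := hyes.and hon
  obtain ⟨⟨G, hFG, hG⟩, hOn⟩ := hQ F hF hQF
  refine rank_le T hd F _ hOn ⟨G, hFG, fun x hx0 hxF hxG => ?_⟩
  obtain ⟨f, hf, hfx, hf'⟩ := hG x hx0 hxF hxG
  refine mult (T.co F f) _ ?_ ?_
  · rintro _ ⟨σ, rfl⟩
    exact T.ev_wt F x σ
  · rintro _ ⟨σ, rfl⟩
    rw [← hfx]
    exact T.ev_ord F f σ (p + 1) hOn hf (hf' σ)

/-- Many sections of one `E_{k,m} ⊗ O(-b)` give Green-Griffiths-Lang. -/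
theorem core_one {n k d m b h : ℕ} (T : Family n k d m b h) (hk : 1 ≤ k) (hd : 1 ≤ d) (p : ℕ)
    (hp : (p : ℤ) * (5 * k - 1) < b)
    (hh : Nat.card (Mon n k m (p + 1)) * (d * ((d - 2) * m - b + n).choose n) < h) : GGL n d :=
  low T hk p hp fun hyes => absurd (high T hd p hyes) (not_le.2 hh)

end Pool.Agent.H47.KB
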