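import Mathlib

set_option autoImplicit false

namespace Pool.Agent.H47.KB

open Finset

/-- Elementary symmetric functions: `el k i = e_i(1, 1/2, .., 1/k)`. -/
noncomputable def el : ℕ → ℕ → ℝ
  | _, 0 => 1
  | 0, _ + 1 => 0
  | k + 1, i + 1 => el k (i + 1) + el k i / (k + 1)

theorem el_zero (k : ℕ) : el k 0 = 1 := by cases k <;> rfl

theorem el_succ (k i : ℕ) : el (k + 1) (i + 1) = el k (i + 1) + el k i / (k + 1) := rfl

theorem el_nonneg (k i : ℕ) : 0 ≤ el k i := by
  induction k generalizing i with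
  | zero =>
    cases i with
    | zero => rw [el_zero]; norm_num
    | succ i => exact le_rfl
  | succ k ih =>
    cases i with
    | zero => rw [el_zero]; norm_num
    | succ i =>
      rw [el_succ]
      have := ih (i + 1)
      have := ih i
      positivity

theorem el_eq_zero {k i : ℕ} (h : k < i) : el k i = 0 := by
  induction k generalizing i with
  | zero =>
    obtain ⟨j, rfl⟩ : ∃ j, i = j + 1 := ⟨i - 1, by omega⟩
    rfl
  | succ k ih =>
    obtain ⟨j, rfl⟩ : ∃ j, i = j + 1 := ⟨i - 1, by omega⟩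
    rw [el_succ, ih (by omega), ih (by omega)]
    simp

/-- `H_k` -/
noncomputable def hr (k : ℕ) : ℝ := ∑ j ∈ range k, 1 / ((j : ℝ) + 1)

theorem hr_succ (k : ℕ) : hr (k + 1) = hr k + 1 / ((k : ℝ) + 1) := by
  rw [hr, sum_range_succ]; rfl

theorem hr_mono : Monotone hr := monotone_nat_of_le_succ fun k => by
  rw [hr_succ]
  have : (0 : ℝ) ≤ 1 / ((k : ℝ) + 1) := by positivity
  linarith

theorem step (k i : ℕ) : (hr k - hr i) * el k i ≤ (i + 1) * el k (i + 1) := by
  induction k generalizing i with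
  | zero =>
    have h1 : hr 0 - hr i ≤ 0 := by
      have := hr_mono (Nat.zero_le i)
      linarith
    have h2 := mul_nonpos_of_nonpos_of_nonneg h1 (el_nonneg 0 i)
    have h3 := el_nonneg 0 (i + 1)
    have : (0 : ℝ) ≤ (i + 1) * el 0 (i + 1) := by positivity
    linarith
  | succ k ih =>
    have hk : (0 : ℝ) < (k : ℝ) + 1 := by positivity
    cases i with
    | zero =>
      have h1 := ih 0
      rw [el_zero] at h1 ⊢
      rw [el_succ, el_zero, hr_succ]
      push_cast at h1 ⊢
      have h2 : (1 : ℝ) / ((k : ℝ) + 1) = 1 / (k + 1) := rfl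
      linarith
    | succ i =>
      rw [el_succ, el_succ, hr_succ]
      have h1 := ih (i + 1)
      have h2 := ih i
      have h3 := el_nonneg k i
      have h4 := el_nonneg k (i + 1)
      set x : ℝ := 1 / ((k : ℝ) + 1) with hx
      have hx0 : 0 < x := by positivity
      have e1 : el k (i + 1) / ((k : ℝ) + 1) = x * el k (i + 1) := by rw [hx]; ring
      have e2 : el k i / ((k : ℝ) + 1) = x * el k i := by rw [hx]; ring
      rw [e1, e2]
      -- the main inequality
      have h5 : (hr k + x - hr (i + 1)) * el k i ≤ (i + 1) * el k (i + 1) := by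
        rcases lt_or_ge k i with h | h
        · rw [el_eq_zero h, mul_zero]
          positivity
        · refine le_trans (mul_le_mul_of_nonneg_right ?_ h3) h2
          rw [hr_succ]
          have : x ≤ 1 / ((i : ℝ) + 1) := by
            rw [hx]
            apply one_div_le_one_div_of_le (by positivity)
            have : (i : ℝ) ≤ k := by exact_mod_cast h
            linarith
          linarith
      have h6 := mul_le_mul_of_nonneg_left h5 hx0.le
      push_cast at h1 ⊢
      nlinarith

/-- `∑_{j = n}^{3n} 1/j ≥ 1` -/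
theorem one_le_hr (n : ℕ) (hn : 1 ≤ n) : 1 + 4 / (5 * (n : ℝ)) ≤ hr (3 * n) - hr (n - 1) := by
  induction n, hn using Nat.le_induction with
  | base =>
    norm_num [hr, sum_range_succ]
  | succ n hn ih =>
    have e : 3 * (n + 1) = 3 * n + 1 + 1 + 1 := by ring
    rw [e, hr_succ, hr_succ, hr_succ]
    have e2 : n + 1 - 1 = (n - 1) + 1 := by omega
    rw [e2, hr_succ]
    have hn0 : (1 : ℝ) ≤ n := by exact_mod_cast hn
    have e3 : ((n - 1 : ℕ) : ℝ) + 1 = n := by
      have : (n - 1) + 1 = n := by omega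
      exact_mod_cast this
    rw [e3]
    push_cast
    have key : 4 / (5 * (n : ℝ)) - 4 / (5 * ((n : ℝ) + 1)) - 1 / (n : ℝ) + 1 / (3 * (n : ℝ) + 1) +
        1 / (3 * (n : ℝ) + 1 + 1) + 1 / (3 * (n : ℝ) + 2 + 1) =
        (18 * (n : ℝ) ^ 2 - 2 * n - 6) / (15 * n * (n + 1) * (3 * n + 1) * (3 * n + 1 + 1)) := by
      have h0 : (0 : ℝ) < n := by linarith
      have e4 : 3 * (n : ℝ) + 2 + 1 = 3 * (n + 1) := by ring
      rw [e4]
      field_simp
      ring
    have h1 : (0 : ℝ) ≤ (18 * (n : ℝ) ^ 2 - 2 * n - 6) /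
        (15 * n * (n + 1) * (3 * n + 1) * (3 * n + 1 + 1)) := by
      have h0 : (0 : ℝ) < n := by linarith
      exact div_nonneg (by nlinarith) (by positivity)
    rw [← key] at h1
    linarith

theorem one_le (n i : ℕ) (h : i + 1 ≤ n) : 1 ≤ hr (3 * n) - hr i := by
  have h1 := one_le_hr n (by omega)
  have h2 : hr i ≤ hr (n - 1) := hr_mono (by omega)
  have h3 : (0 : ℝ) ≤ 4 / (5 * (n : ℝ)) := by positivity
  linarith

/-- `e_i ≤ (i + 1) e_(i+1)` -/
theorem el_step' (n i : ℕ) (h : i + 1 ≤ n) : el (3 * n) i ≤ (i + 1) * el (3 * n) (i + 1) := by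
  refine le_trans ?_ (step (3 * n) i)
  have h1 := mul_le_mul_of_nonneg_right (one_le n i h) (el_nonneg (3 * n) i)
  linarith

theorem el_step (n i : ℕ) (h : i + 1 ≤ n) : el (3 * n) i ≤ n * el (3 * n) (i + 1) := by
  refine le_trans (el_step' n i h) ?_
  refine mul_le_mul_of_nonneg_right ?_ (el_nonneg _ _)
  exact_mod_cast h

theorem one_le_el (n : ℕ) : 1 ≤ n.factorial * el (3 * n) n := by
  have key : ∀ i, i ≤ n → 1 ≤ i.factorial * el (3 * n) i := by
    intro i
    induction i with
    | zero => intro _; rw [el_zero]; simp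
    | succ i ih =>
      intro h
      have h1 := ih (by omega)
      have h2 := mul_le_mul_of_nonneg_left (el_step' n i h) (show (0 : ℝ) ≤ i.factorial by positivity)
      rw [Nat.factorial_succ]
      push_cast
      calc (1 : ℝ) ≤ _ := h1
        _ ≤ _ := h2
        _ = _ := by ring
  exact key n le_rfl

end Pool.Agent.H47.KB
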