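import Pool.Agent.H47.KB.Defs

set_option autoImplicit false

open MvPolynomial Filter Topology

namespace Pool.Agent.H47.KB

/-- The restriction of a polynomial in the coefficients to the line through `F₀` and `F₁`. -/
noncomputable def line {n : ℕ} (F₀ F₁ : Frm n) (P : Cof n) : Polynomial ℂ :=
  aeval (fun m => Polynomial.C (F₀.coeff m) + Polynomial.C (F₁.coeff m - F₀.coeff m) * Polynomial.X) P

lemma eval_line {n : ℕ} (F₀ F₁ : Frm n) (P : Cof n) (t : ℂ) :
    (line F₀ F₁ P).eval t = val P (F₀ + t • (F₁ - F₀)) := by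
  have h : (Polynomial.evalRingHom t).comp (aeval (fun m => Polynomial.C (F₀.coeff m) +
      Polynomial.C (F₁.coeff m - F₀.coeff m) * Polynomial.X) : Cof n →ₐ[ℂ] Polynomial ℂ).toRingHom =
      eval (fun m => (F₀ + t • (F₁ - F₀)).coeff m) := by
    refine MvPolynomial.ringHom_ext (fun r => ?_) fun m => ?_
    · simp
    · simp
      ring
  exact congrArg (fun f => f P) h

/-- GEN: two general properties hold together in general. -/
theorem General.and {n d : ℕ} {Q R : Frm n → Prop} (h : General n d Q) (h' : General n d R) :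
    General n d fun F => Q F ∧ R F := by
  obtain ⟨P, ⟨F₀, h0, hP0⟩, hP⟩ := h
  obtain ⟨P', ⟨F₁, h1, hP1⟩, hP'⟩ := h'
  refine ⟨P * P', ?_, fun F hF hv => ?_⟩
  · have e0 : (line F₀ F₁ P).eval 0 = val P F₀ := by rw [eval_line, zero_smul, add_zero]
    have e1 : (line F₀ F₁ P').eval 1 = val P' F₁ := by
      rw [eval_line, one_smul, add_sub_cancel]
    have n0 : line F₀ F₁ P ≠ 0 := fun h => hP0 (by rw [← e0, h, Polynomial.eval_zero])
    have n1 : line F₀ F₁ P' ≠ 0 := fun h => hP1 (by rw [← e1, h, Polynomial.eval_zero])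
    obtain ⟨t, ht⟩ : ∃ t : ℂ, (line F₀ F₁ P * line F₀ F₁ P').eval t ≠ 0 := by
      by_contra hc
      push Not at hc
      exact mul_ne_zero n0 n1 (Polynomial.funext fun t => by rw [hc t, Polynomial.eval_zero])
    refine ⟨F₀ + t • (F₁ - F₀), ?_, ?_⟩
    · refine h0.add ?_
      rw [smul_eq_C_mul]
      have := (isHomogeneous_C (Fin (n + 2)) t).mul (h1.sub h0)
      rwa [zero_add] at this
    · rw [Polynomial.eval_mul, eval_line, eval_line] at ht
      unfold val at ht ⊢
      rw [map_mul]
      exact ht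
  · have hv' : val P F * val P' F ≠ 0 := by
      unfold val at hv ⊢
      rwa [map_mul] at hv
    exact ⟨hP F hF (left_ne_zero_of_mul hv'), hP' F hF (right_ne_zero_of_mul hv')⟩

end Pool.Agent.H47.KB
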