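import Mathlib

set_option autoImplicit false

open Real

namespace Pool.Agent.H47.KB

/-- The exponent `T`, `q = 2T/M`. -/
noncomputable def TT (n : ℕ) : ℝ := n * (5 / 2 * log n + 5 / 2) + log n + 17 / 10

/-- Stirling's formula, upper bound. -/
theorem factorial_le_stirling (M : ℕ) (hM : 1 ≤ M) :
    ((M.factorial : ℕ) : ℝ) ≤ exp 1 * sqrt M * (M / exp 1) ^ M := by
  obtain ⟨k, rfl⟩ : ∃ k, M = k + 1 := ⟨M - 1, by omega⟩
  have h1 : Stirling.stirlingSeq (k + 1) ≤ Stirling.stirlingSeq 1 :=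
    Stirling.stirlingSeq'_antitone (Nat.zero_le k)
  rw [Stirling.stirlingSeq_one, Stirling.stirlingSeq] at h1
  have hpos : (0 : ℝ) < (k + 1 : ℕ) := by exact_mod_cast Nat.succ_pos k
  have hden : 0 < sqrt (2 * ((k + 1 : ℕ) : ℝ)) * (((k + 1 : ℕ) : ℝ) / exp 1) ^ (k + 1) := by
    positivity
  rw [div_le_iff₀ hden] at h1
  refine h1.trans (le_of_eq ?_)
  rw [sqrt_mul (by norm_num)]
  have h2 : sqrt 2 ≠ 0 := by positivity
  field_simp

theorem log_three_lt : log 3 < 1.0987 := by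
  have h1 : 12 * log 3 = 19 * log 2 + log (531441 / 524288) := by
    have a1 : (12 : ℝ) * log 3 = log (3 ^ 12) := by rw [log_pow]; norm_num
    have a2 : (19 : ℝ) * log 2 = log (2 ^ 19) := by rw [log_pow]; norm_num
    rw [a1, a2, ← log_mul (by norm_num) (by norm_num)]
    norm_num
  have h2 : log (531441 / 524288 : ℝ) ≤ 531441 / 524288 - 1 := log_le_sub_one_of_pos (by norm_num)
  have h3 := log_two_lt_d9
  norm_num at h2 h3 ⊢
  linarith

/-- NUM 1: here `M = 3n² - 1`, `N = M + n`, `k = 3n`. -/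
theorem num1 (n : ℕ) (hn : 2 ≤ n) :
    exp ((3 * n ^ 2 - 1 : ℕ) - TT n) * (2 * sqrt (3 * n : ℕ)) ^ n * ((3 * n ^ 2 - 1 + n).factorial : ℝ) ≤
      9 / 10 * ((3 * n ^ 2 - 1 : ℕ) : ℝ) ^ (3 * n ^ 2 - 1) := by
  have hn0 : (2 : ℝ) ≤ n := by exact_mod_cast hn
  have hnn : 3 * 2 ^ 2 ≤ 3 * n ^ 2 := by
    have := Nat.pow_le_pow_left hn 2
    omega
  set M : ℕ := 3 * n ^ 2 - 1 with hMdef
  have hM11 : 11 ≤ M := by omega
  have hMr : (M : ℝ) = 3 * n ^ 2 - 1 := by
    rw [hMdef, Nat.cast_sub (by omega)]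
    push_cast
    ring
  have hM0 : (0 : ℝ) < M := by exact_mod_cast (show 0 < M by omega)
  have hf : (((M + n).factorial : ℕ) : ℝ) ≤ (M.factorial : ℝ) * ((M : ℝ) + n) ^ n := by
    have h1 : (M + n).factorial ≤ M.factorial * (M + n) ^ n := by
      rw [← Nat.factorial_mul_ascFactorial]
      apply Nat.mul_le_mul_left
      exact Nat.ascFactorial_le_pow_add M n
    exact_mod_cast h1
  have hL0 : 0 ≤ log n := log_nonneg (by linarith)
  have hst := factorial_le_stirling M (by omega)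
  have h2 : exp ((M : ℝ) - TT n) * (2 * sqrt (3 * n : ℕ)) ^ n * (((M + n).factorial : ℕ) : ℝ) ≤
      exp ((M : ℝ) - TT n) * (2 * sqrt (3 * n : ℕ)) ^ n *
        ((exp 1 * sqrt M * (M / exp 1) ^ M) * ((M : ℝ) + n) ^ n) := by
    gcongr
    exact hf.trans (by gcongr)
  refine h2.trans ?_
  have hn1 : (0 : ℝ) < n := by linarith
  have h3n : (0 : ℝ) < ((3 * n : ℕ) : ℝ) := by exact_mod_cast (show 0 < 3 * n by omega)
  have hsq : 0 < sqrt ((3 * n : ℕ) : ℝ) := sqrt_pos.2 h3n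
  have hMn : (0 : ℝ) < (M : ℝ) + n := by linarith
  have hlhs : 0 < exp ((M : ℝ) - TT n) * (2 * sqrt (3 * n : ℕ)) ^ n *
        ((exp 1 * sqrt M * (M / exp 1) ^ M) * ((M : ℝ) + n) ^ n) := by positivity
  rw [← log_le_log_iff hlhs (by positivity)]
  have l1 : log (exp ((M : ℝ) - TT n) * (2 * sqrt (3 * n : ℕ)) ^ n *
        ((exp 1 * sqrt M * (M / exp 1) ^ M) * ((M : ℝ) + n) ^ n)) =
      (M - TT n) + n * (log 2 + log (3 * n : ℕ) / 2) + (1 + log M / 2 + M * (log M - 1)) +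
        n * log (M + n) := by
    rw [log_mul (by positivity) (by positivity), log_mul (by positivity) (by positivity),
      log_mul (by positivity) (by positivity), log_mul (by positivity) (by positivity),
      log_mul (by positivity) (by positivity), log_exp, log_pow, log_pow, log_pow, log_exp,
      log_mul (by norm_num) hsq.ne', log_sqrt h3n.le, log_sqrt hM0.le, log_div hM0.ne' (exp_pos 1).ne',
      log_exp]
    ring
  have l2 : log (9 / 10 * (M : ℝ) ^ M) = log (9 / 10) + M * log M := by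
    rw [log_mul (by norm_num) (by positivity), log_pow]
  rw [l1, l2]
  have b1 : log ((3 * n : ℕ) : ℝ) = log 3 + log n := by
    push_cast
    rw [log_mul (by norm_num) hn1.ne']
  have b2 : log (3 * (n : ℝ) ^ 2) = log 3 + 2 * log n := by
    rw [log_mul (by norm_num) (by positivity), log_pow]
    push_cast
    ring
  have b3 : log M ≤ log 3 + 2 * log n := by
    rw [← b2]
    exact log_le_log hM0 (by rw [hMr]; linarith)
  have b4 : n * log (M + n) ≤ n * (log 3 + 2 * log n) + 1 / 3 := by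
    have c1 : log ((M : ℝ) + n) ≤ (log 3 + 2 * log n) + 1 / (3 * n) := by
      have c2 : log ((M : ℝ) + n) = log (3 * (n : ℝ) ^ 2) + log (((M : ℝ) + n) / (3 * n ^ 2)) := by
        rw [← log_mul (by positivity) (by positivity)]
        congr 1
        field_simp
      have c3 : log (((M : ℝ) + n) / (3 * n ^ 2)) ≤ ((M : ℝ) + n) / (3 * n ^ 2) - 1 :=
        log_le_sub_one_of_pos (by positivity)
      have c4 : ((M : ℝ) + n) / (3 * n ^ 2) - 1 ≤ 1 / (3 * n) := by
        rw [hMr, div_sub_one (by positivity), div_le_div_iff₀ (by positivity) (by positivity)]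
        nlinarith
      rw [c2, b2]
      linarith
    calc n * log ((M : ℝ) + n) ≤ n * ((log 3 + 2 * log n) + 1 / (3 * n)) := by gcongr
      _ = n * (log 3 + 2 * log n) + 1 / 3 := by field_simp
  have b5 : -(1 / 9) ≤ log (9 / 10 : ℝ) := by
    have c1 : log (10 / 9 : ℝ) ≤ 10 / 9 - 1 := log_le_sub_one_of_pos (by norm_num)
    have c2 : log (9 / 10 : ℝ) = - log (10 / 9) := by
      rw [← log_inv]
      norm_num
    rw [c2]
    linarith
  have b6 := log_three_lt
  have b7 := log_two_lt_d9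
  rw [b1]
  unfold TT
  have b8 : (n : ℝ) * log 2 ≤ n * 0.6931471808 := by gcongr
  have b9 : (n : ℝ) * log 3 ≤ n * 1.0987 := by gcongr
  clear l1 l2 hlhs h2 hf hst b1 b2 hsq h3n
  norm_num at b5 b6 b7 b8 b9 ⊢
  have b10 : (n : ℝ) * ((log 3 + log n) / 2) = (n * log 3 + n * log n) / 2 := by ring
  linarith

/-- NUM 2. -/
theorem num2 (n d : ℕ) (hn : 2 ≤ n) (hd : 300 * (n : ℝ) ^ 3 * (1 + log n) ≤ d) :
    2 * TT n / (3 * n ^ 2 - 1 : ℕ) * (15 * n - 1) < (d : ℝ) / (8 * n ^ 3) - 2 := by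
  have hn0 : (2 : ℝ) ≤ n := by exact_mod_cast hn
  have hnn : 3 * 2 ^ 2 ≤ 3 * n ^ 2 := by
    have := Nat.pow_le_pow_left hn 2
    omega
  have hMr : ((3 * n ^ 2 - 1 : ℕ) : ℝ) = 3 * n ^ 2 - 1 := by
    rw [Nat.cast_sub (by omega)]
    push_cast
    ring
  have hL : 0.69 ≤ log n := by
    have h1 := log_two_gt_d9
    have h2 := log_le_log (by norm_num) hn0
    norm_num at h1 ⊢
    linarith
  rw [hMr]
  have hpos : (0 : ℝ) < 3 * n ^ 2 - 1 := by nlinarith
  have hn1 : (0 : ℝ) < n := by linarith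
  have h1 : (37.5 : ℝ) * (1 + log n) ≤ d / (8 * n ^ 3) := by
    rw [le_div_iff₀ (by positivity)]
    nlinarith
  have h2 : (15 * (n : ℝ) - 1) / (3 * n ^ 2 - 1) ≤ 5.3 / n := by
    rw [div_le_div_iff₀ hpos hn1]
    nlinarith
  have hT : 0 ≤ TT n := by
    unfold TT
    have : 0 ≤ log n := by linarith
    positivity
  have h3 : 2 * TT n / (3 * n ^ 2 - 1) * (15 * n - 1) = 2 * TT n * ((15 * (n : ℝ) - 1) / (3 * n ^ 2 - 1)) := by
    ring
  have h4 : 2 * TT n * ((15 * (n : ℝ) - 1) / (3 * n ^ 2 - 1)) ≤ 2 * TT n * (5.3 / n) := by gcongr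
  have h5 : 2 * TT n * (5.3 / n) = 26.5 * (log n + 1) + 10.6 * (log n + 1.7) / n := by
    unfold TT
    field_simp
    ring
  have h6 : 10.6 * (log n + 1.7) / n ≤ 5.3 * (log n + 1.7) := by
    rw [div_le_iff₀ hn1]
    nlinarith
  rw [h3]
  norm_num at *
  linarith

/-- NUM 3: from dimension `2n - 1` to dimension `n`. -/
theorem num3 (n d : ℕ) (hn : 2 ≤ n) (hd : 4000 * (n : ℝ) ^ 3 * (1 + log n) ≤ d) :
    300 * ((2 * n - 1 : ℕ) : ℝ) ^ 3 * (1 + log (2 * n - 1 : ℕ)) ≤ d := by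
  have hn0 : (2 : ℝ) ≤ n := by exact_mod_cast hn
  have hc : ((2 * n - 1 : ℕ) : ℝ) ≤ 2 * n := by exact_mod_cast Nat.sub_le (2 * n) 1
  have hc1 : (1 : ℝ) ≤ ((2 * n - 1 : ℕ) : ℝ) := by exact_mod_cast (show 1 ≤ 2 * n - 1 by omega)
  have h1 : log ((2 * n - 1 : ℕ) : ℝ) ≤ log 2 + log n := by
    rw [← log_mul (by norm_num) (by linarith)]
    exact log_le_log (by linarith) hc
  have h0 : 0 ≤ log ((2 * n - 1 : ℕ) : ℝ) := log_nonneg hc1
  have hL : 0.69 ≤ log n := by
    have h1 := log_two_gt_d9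
    have h2 := log_le_log (by norm_num) hn0
    norm_num at h1 ⊢
    linarith
  have hl2 : log 2 ≤ 0.7 := by
    have := log_two_lt_d9
    norm_num at this ⊢
    linarith
  have h2 : ((2 * n - 1 : ℕ) : ℝ) ^ 3 ≤ (2 * (n : ℝ)) ^ 3 := pow_le_pow_left₀ (by linarith) hc 3
  refine le_trans ?_ hd
  calc 300 * ((2 * n - 1 : ℕ) : ℝ) ^ 3 * (1 + log (2 * n - 1 : ℕ))
      ≤ 300 * (2 * (n : ℝ)) ^ 3 * (1 + (0.7 + log n)) := by
        gcongr
        linarith
    _ ≤ 4000 * (n : ℝ) ^ 3 * (1 + log n) := by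
        have h3 : 0 < (n : ℝ) ^ 3 := by positivity
        have h4 : 2400 * (1 + (0.7 + log n)) ≤ 4000 * (1 + log n) := by
          norm_num at *
          linarith
        nlinarith

end Pool.Agent.H47.KB
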