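import Pool.Agent.H39.KB.Vol

set_option autoImplicit false

namespace Pool.Agent.H47.KB

/-- PHI: the volume estimate, `k = 3n`, `t = d/(8n³)`. -/
theorem vol_ge (n d : ℕ) (hn : 2 ≤ n) (hd : 300 * n ^ 3 ≤ d) (I : ℕ → ℝ)
    (hI : ∀ i ≤ n, I i = (d : ℝ) / (((3 * n).factorial : ℝ) ^ n) *
      PowerSeries.coeff (n - i) (segre n (3 * n) d)) :
    12 / 25 * (d : ℝ) ^ (n + 1) / (n.factorial * ((3 * n).factorial : ℝ) ^ n) ≤
      vol0 n (3 * n) I - dimN n (3 * n) * ((d : ℝ) / (8 * n ^ 3)) * vol1 n (3 * n) I :=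
  Pool.Agent.H39.KB.vol_ge n d hn hd I hI

end Pool.Agent.H47.KB
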