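import Pool.Agent.H47.KB.Asym
import Pool.Agent.H47.KB.Phi
import Pool.Agent.H47.KB.Num

set_option autoImplicit false

open Filter Topology Real

namespace Pool.Agent.H47.KB

/-- Green-Griffiths-Lang for general hypersurfaces of degree `d ≥ 300 n³ (1 + log n)`. -/
theorem ggl (T : Published) (n d : ℕ) (hn : 2 ≤ n) (hd : 300 * (n : ℝ) ^ 3 * (1 + log n) ≤ d) :
    GGL n d := by
  have hn' : (2 : ℝ) ≤ n := by exact_mod_cast hn
  have hlog : 0 ≤ log (n : ℝ) := log_nonneg (by linarith)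
  have hd3 : 300 * (n : ℝ) ^ 3 ≤ d := by
    refine le_trans ?_ hd
    have : (0 : ℝ) < 300 * (n : ℝ) ^ 3 := by positivity
    nlinarith
  have hd3' : 300 * n ^ 3 ≤ d := by exact_mod_cast hd3
  have hd0 : (0 : ℝ) < d := lt_of_lt_of_le (by positivity) hd3
  have hd1 : 1 ≤ d := by exact_mod_cast hd0
  have hkd : n + 3 * n ≤ d := by
    have h2 : n ≤ n ^ 3 := Nat.le_self_pow (by norm_num) n
    omega
  have hk1 : 1 ≤ 3 * n := by omega
  have hM : 2 ≤ 3 * n * n := by nlinarith
  have hMM : 3 * n * n - 1 = 3 * n ^ 2 - 1 := by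
    congr 1
    ring
  have hNN : n + 3 * n * n - 1 = 3 * n ^ 2 - 1 + n := by
    have : 3 * n * n = 3 * n ^ 2 := by ring
    rw [this]
    omega
  let J := T.jets n (3 * n) d hn hk1 hkd
  set M : ℕ := 3 * n ^ 2 - 1 with hMdef
  have hM0 : (0 : ℝ) < (M : ℝ) := by
    have : 0 < M := by omega
    exact_mod_cast this
  set t : ℚ := (d : ℚ) / (8 * n ^ 3) with ht
  have ht0 : 0 ≤ t := by positivity
  have htr : (t : ℝ) = (d : ℝ) / (8 * n ^ 3) := by rw [ht]; push_cast; rfl
  set X : ℝ := (d : ℝ) ^ (n + 1) / (n.factorial * ((3 * n).factorial : ℝ) ^ n) with hX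
  have hX0 : 0 < X := by positivity
  have hv := vol_ge n d hn hd3' J.I J.I_eq
  rw [mul_div_assoc, ← hX, ← htr] at hv
  obtain ⟨D, hD, m₀, hm⟩ := J.morse t ht0 (X / 100) (by positivity)
  have hT0 : 0 ≤ TT n := by
    unfold TT
    positivity
  set q : ℝ := 2 * TT n / M with hq
  have hq0 : 0 ≤ q := by positivity
  refine core J.toJets (by omega) hk1 hM hd1 q (47 / 100 * X / (dimN n (3 * n)).factorial) (t - 2) hq0 ?_ ?_ ?_
  · have h2 := num2 n d hn hd
    rw [← hMdef, ← hq] at h2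
    push_cast
    rw [htr]
    calc q * (5 * (3 * n) - 1) = q * (15 * n - 1) := by ring
      _ < _ := h2
  · refine ⟨D, hD, m₀, fun m h1 h2 b hb => ?_⟩
    refine le_trans ?_ (hm m h1 h2 b hb)
    have h3 : n + 3 * n * n - 1 = dimN n (3 * n) := rfl
    rw [h3]
    have h4 : 47 / 100 * X ≤ vol0 n (3 * n) J.I - dimN n (3 * n) * t * vol1 n (3 * n) J.I - X / 100 := by
      linarith
    rw [div_mul_eq_mul_div]
    gcongr
  · have h1 := num1 n hn
    rw [← hMdef] at h1
    have h3 : dimN n (3 * n) = M + n := hNN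
    rw [h3]
    unfold cnt
    rw [hMM]
    have h5 : q * M / 2 = TT n := by
      rw [hq]
      field_simp
    rw [h5]
    have hF : (0 : ℝ) < ((M + n).factorial : ℝ) := by positivity
    have h6 : exp (M - TT n) * (2 * sqrt (3 * n : ℕ)) ^ n / (M : ℝ) ^ M ≤ 9 / 10 / ((M + n).factorial : ℝ) := by
      rw [div_le_div_iff₀ (by positivity) hF]
      exact h1
    calc exp (M - TT n) / (M : ℝ) ^ M * ((2 * sqrt (3 * n : ℕ)) ^ n / (2 * ((3 * n).factorial : ℝ) ^ n)) *
          ((d : ℝ) ^ (n + 1) / n.factorial)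
        = (exp (M - TT n) * (2 * sqrt (3 * n : ℕ)) ^ n / (M : ℝ) ^ M) * (X / 2) := by
          rw [hX]
          field_simp
      _ ≤ 9 / 10 / ((M + n).factorial : ℝ) * (X / 2) :=
          mul_le_mul_of_nonneg_right h6 (by linarith)
      _ < 47 / 100 * X / (M + n).factorial := by
          rw [div_mul_eq_mul_div]
          exact div_lt_div_of_pos_right (by linarith) hF

/-- Kobayashi hyperbolicity of general hypersurfaces of degree `d ≥ 4000 n³ (1 + log n)`. -/
theorem hyp (T : Published) (n d : ℕ) (hn : 2 ≤ n) (hd : 4000 * (n : ℝ) ^ 3 * (1 + log n) ≤ d) :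
    Hyp n d :=
  T.riedl_yang n d hn (ggl T (2 * n - 1) d (by omega) (num3 n d hn hd))

end Pool.Agent.H47.KB
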